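import Pool.Agent.Helper58.CP.Stmts

/-!
# Block D, row FILL: filling a face of a planar map by a planar map with a simple face
-/

namespace QD48

noncomputable section

open CP QR Equiv.Perm Classical

/-! ### cycles -/

theorem cyc_on {α : Type} [Fintype α] (f : Equiv.Perm α) (x : α) :
    f.IsCycleOn ((Finset.univ.filter (fun y => f.SameCycle x y) : Finset α) : Set α) := by
  refine ⟨⟨?_, f.injective.injOn, ?_⟩, ?_⟩
  · intro y hy
    simp only [Finset.coe_filter, Finset.mem_univ, true_and, Set.mem_ofPred_eq] at hy ⊢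
    exact sameCycle_apply_right.2 hy
  · intro y hy
    simp only [Finset.coe_filter, Finset.mem_univ, true_and, Set.mem_ofPred_eq] at hy
    refine ⟨f⁻¹ y, ?_, by simp⟩
    simp only [Finset.coe_filter, Finset.mem_univ, true_and, Set.mem_ofPred_eq]
    exact sameCycle_apply_right.1 (by simpa using hy)
  · intro y hy z hz
    simp only [Finset.coe_filter, Finset.mem_univ, true_and, Set.mem_ofPred_eq] at hy hz
    exact hy.symm.trans hz

theorem per {α : Type} [Fintype α] (f : Equiv.Perm α) (x : α) (i j : ℤ) :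
    (f ^ i) x = (f ^ j) x ↔ i ≡ j [ZMOD ((Nat.card {y // f.SameCycle x y} : ℕ) : ℤ)] := by
  have h := (cyc_on f x).zpow_apply_eq_zpow_apply (a := x) (m := i) (n := j) (by simp [SameCycle.refl])
  rw [h]
  rw [Nat.card_eq_fintype_card, Fintype.card_subtype]

/-- the reversing map from the cycle of `x` to the cycle of `y` -/
def bf {α β : Type} (f : Equiv.Perm α) (g : Equiv.Perm β) (x : α) (y : β) (d : α) : β :=
  if h : f.SameCycle x d then (g ^ (-h.choose)) y else y

theorem bf_zpow {α β : Type} [Fintype α] [Fintype β] (f : Equiv.Perm α) (g : Equiv.Perm β) (x : α)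
    (y : β) (hc : Nat.card {z // f.SameCycle x z} = Nat.card {z // g.SameCycle y z}) (i : ℤ) :
    bf f g x y ((f ^ i) x) = (g ^ (-i)) y := by
  have h : f.SameCycle x ((f ^ i) x) := ⟨i, rfl⟩
  unfold bf
  rw [dif_pos h]
  have hs := h.choose_spec
  rw [per] at hs
  rw [per, ← hc]
  exact hs.neg

theorem bf_same {α β : Type} (f : Equiv.Perm α) (g : Equiv.Perm β) (x : α) (y : β) (d : α) :
    g.SameCycle y (bf f g x y d) := by
  unfold bf
  split_ifs with h
  · exact ⟨_, rfl⟩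
  · exact SameCycle.refl g y

theorem bf_bf {α β : Type} [Fintype α] [Fintype β] (f : Equiv.Perm α) (g : Equiv.Perm β) (x : α)
    (y : β) (hc : Nat.card {z // f.SameCycle x z} = Nat.card {z // g.SameCycle y z}) (d : α)
    (hd : f.SameCycle x d) : bf g f y x (bf f g x y d) = d := by
  obtain ⟨i, rfl⟩ := hd
  rw [bf_zpow f g x y hc, bf_zpow g f y x hc.symm, neg_neg]

theorem bf_f {α β : Type} [Fintype α] [Fintype β] (f : Equiv.Perm α) (g : Equiv.Perm β) (x : α)
    (y : β) (hc : Nat.card {z // f.SameCycle x z} = Nat.card {z // g.SameCycle y z}) (d : α)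
    (hd : f.SameCycle x d) : bf f g x y (f d) = g⁻¹ (bf f g x y d) := by
  obtain ⟨i, rfl⟩ := hd
  have : f ((f ^ i) x) = (f ^ (1 + i)) x := by rw [zpow_add, zpow_one]; rfl
  rw [this, bf_zpow f g x y hc, bf_zpow f g x y hc, neg_add, zpow_add, zpow_neg_one]
  rfl

/-- walking along a cycle -/
theorem walk {α : Type} [Fintype α] (f : Equiv.Perm α) (Z : Set α) (y : α) (hy : y ∈ Z)
    (h : ∀ z, f.SameCycle y z → z ≠ f⁻¹ y → z ∈ Z → f z ∈ Z) : ∀ z, f.SameCycle y z → z ∈ Z := by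
  have key : ∀ n : ℕ, (f ^ n) y ∈ Z := by
    intro n
    induction n with
    | zero => simpa using hy
    | succ n ih =>
      have e : (f ^ (n + 1)) y = f ((f ^ n) y) := by rw [pow_succ']; rfl
      rw [e]
      by_cases hc : (f ^ n) y = f⁻¹ y
      · rw [hc]; simpa using hy
      · exact h _ ⟨n, by simp⟩ hc ih
  intro z hz
  obtain ⟨n, hn⟩ := hz.exists_nat_pow_eq
  rw [← hn]; exact key n

/-! ### the data -/

/-- the hypotheses of the row -/
structure Dat (D1 D2 : Type) [Fintype D1] [Fintype D2] where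
  m1 : RMap D1
  m2 : RMap D2
  o1 : D1
  o2 : D2
  pl1 : m1.Planar
  pl2 : m2.Planar
  hc : m1.fdeg o1 = m2.fdeg o2
  hs : m2.Simple o2
  hn : ∀ e, m2.face.SameCycle o2 e → ¬ m2.face.SameCycle o2 (m2.opp e)

namespace Dat

variable {D1 D2 : Type} [Fintype D1] [Fintype D2] (A : Dat D1 D2)

/-- the face of `o1` -/
def P1 (d : D1) : Prop := A.m1.face.SameCycle A.o1 d

/-- the face of `o2` -/
def P2 (x : D2) : Prop := A.m2.face.SameCycle A.o2 x

/-- the reversing map `P1 → P2` -/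
def b (d : D1) : D2 := bf A.m1.face A.m2.face A.o1 A.o2 d

/-- the reversing map `P2 → P1` -/
def c (x : D2) : D1 := bf A.m2.face A.m1.face A.o2 A.o1 x

theorem P2_b (d : D1) : A.P2 (A.b d) := bf_same _ _ _ _ _

theorem P1_c (x : D2) : A.P1 (A.c x) := bf_same _ _ _ _ _

theorem c_b (d : D1) (hd : A.P1 d) : A.c (A.b d) = d := bf_bf _ _ _ _ A.hc _ hd

theorem b_c (x : D2) (hx : A.P2 x) : A.b (A.c x) = x := bf_bf _ _ _ _ A.hc.symm _ hx

theorem b_face (d : D1) (hd : A.P1 d) : A.m2.face (A.b (A.m1.face d)) = A.b d := by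
  unfold b
  rw [bf_f _ _ _ _ A.hc _ hd]; simp

theorem b_pow (i : ℤ) : A.b ((A.m1.face ^ i) A.o1) = (A.m2.face ^ (-i)) A.o2 :=
  bf_zpow _ _ _ _ A.hc i

theorem c_pow (i : ℤ) : A.c ((A.m2.face ^ i) A.o2) = (A.m1.face ^ (-i)) A.o1 :=
  bf_zpow _ _ _ _ A.hc.symm i

theorem P1_face (d : D1) : A.P1 (A.m1.face d) ↔ A.P1 d := sameCycle_apply_right

theorem P2_face (x : D2) : A.P2 (A.m2.face x) ↔ A.P2 x := sameCycle_apply_right

/-- the new set of darts -/
abbrev DD : Type := {d : D1 // ¬ A.P1 d} ⊕ {x : D2 // ¬ A.P2 x}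

theorem nP2 (d : D1) : ¬ A.P2 (A.m2.opp (A.b d)) := A.hn _ (A.P2_b d)

/-- the map of darts of the first map -/
def E (d : D1) : A.DD :=
  if h : A.P1 d then Sum.inr ⟨A.m2.opp (A.b d), A.nP2 d⟩ else Sum.inl ⟨d, h⟩

/-- the map of darts of the second map -/
def J (x : D2) : A.DD :=
  if h : A.P2 x then A.E (A.m1.opp (A.c x)) else Sum.inr ⟨x, h⟩

theorem E_pos (d : D1) (h : A.P1 d) : A.E d = Sum.inr ⟨A.m2.opp (A.b d), A.nP2 d⟩ := dif_pos h

theorem E_neg (d : D1) (h : ¬ A.P1 d) : A.E d = Sum.inl ⟨d, h⟩ := dif_neg h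

theorem J_pos (x : D2) (h : A.P2 x) : A.J x = A.E (A.m1.opp (A.c x)) := dif_pos h

theorem J_neg (x : D2) (h : ¬ A.P2 x) : A.J x = Sum.inr ⟨x, h⟩ := dif_neg h

theorem E_J (d : D1) (h : A.P1 d) : A.E d = A.J (A.m2.opp (A.b d)) := by
  rw [A.E_pos d h, A.J_neg _ (A.nP2 d)]

theorem E_inj : Function.Injective A.E := by
  intro d d' h
  by_cases h1 : A.P1 d <;> by_cases h2 : A.P1 d'
  · rw [A.E_pos d h1, A.E_pos d' h2] at h
    simp only [Sum.inr.injEq, Subtype.mk.injEq, EmbeddingLike.apply_eq_iff_eq] at h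
    rw [← A.c_b d h1, ← A.c_b d' h2, h]
  · rw [A.E_pos d h1, A.E_neg d' h2] at h
    simp at h
  · rw [A.E_neg d h1, A.E_pos d' h2] at h
    simp at h
  · rw [A.E_neg d h1, A.E_neg d' h2] at h
    simpa using h

/-- the reversal -/
def op (z : A.DD) : A.DD :=
  match z with
  | Sum.inl d => A.E (A.m1.opp d.1)
  | Sum.inr x => A.J (A.m2.opp x.1)

theorem op_E (d : D1) : A.op (A.E d) = A.E (A.m1.opp d) := by
  by_cases h : A.P1 d
  · rw [A.E_pos d h]
    show A.J (A.m2.opp (A.m2.opp (A.b d))) = _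
    rw [A.m2.opp_opp, A.J_pos _ (A.P2_b d), A.c_b d h]
  · rw [A.E_neg d h]
    rfl

theorem op_J (x : D2) : A.op (A.J x) = A.J (A.m2.opp x) := by
  by_cases h : A.P2 x
  · rw [A.J_pos x h, A.op_E, A.m1.opp_opp, A.E_J _ (A.P1_c x), A.b_c x h]
  · rw [A.J_neg x h]
    rfl

theorem cover (z : A.DD) : (∃ d, ¬ A.P1 d ∧ z = A.E d) ∨ (∃ x, ¬ A.P2 x ∧ z = A.J x) := by
  rcases z with ⟨d, h⟩ | ⟨x, h⟩
  · left; exact ⟨d, h, (A.E_neg d h).symm⟩
  · right; exact ⟨x, h, (A.J_neg x h).symm⟩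

theorem op_op (z : A.DD) : A.op (A.op z) = z := by
  rcases A.cover z with ⟨d, -, rfl⟩ | ⟨x, -, rfl⟩
  · rw [A.op_E, A.op_E, A.m1.opp_opp]
  · rw [A.op_J, A.op_J, A.m2.opp_opp]

theorem op_ne (z : A.DD) : A.op z ≠ z := by
  have h1 : ∀ d, A.op (A.E d) ≠ A.E d := by
    intro d h
    rw [A.op_E] at h
    exact A.m1.opp_ne d (A.E_inj h)
  rcases A.cover z with ⟨d, -, rfl⟩ | ⟨x, hx, rfl⟩
  · exact h1 d
  · by_cases h2 : A.P2 (A.m2.opp x)
    · have h3 : A.J x = A.E (A.c (A.m2.opp x)) := by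
        rw [A.E_J _ (A.P1_c _), A.b_c _ h2, A.m2.opp_opp]
      rw [h3]; exact h1 _
    · rw [A.op_J, A.J_neg _ h2, A.J_neg _ hx]
      intro h
      simp only [Sum.inr.injEq, Subtype.mk.injEq] at h
      exact A.m2.opp_ne x h

/-- the face permutation -/
def fac : Equiv.Perm A.DD :=
  Equiv.sumCongr (A.m1.face.subtypePerm (fun d => not_congr (A.P1_face d)))
    (A.m2.face.subtypePerm (fun x => not_congr (A.P2_face x)))

theorem fac_E (d : D1) (h : ¬ A.P1 d) : A.fac (A.E d) = A.E (A.m1.face d) := by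
  rw [A.E_neg d h, A.E_neg _ ((not_congr (A.P1_face d)).2 h)]
  rfl

theorem fac_J (x : D2) (h : ¬ A.P2 x) : A.fac (A.J x) = A.J (A.m2.face x) := by
  rw [A.J_neg x h, A.J_neg _ ((not_congr (A.P2_face x)).2 h)]
  rfl

/-- the reversal as a permutation -/
def opE : Equiv.Perm A.DD := ⟨A.op, A.op, A.op_op, A.op_op⟩

/-- the glued map -/
def M : RMap A.DD where
  rot := A.opE.trans A.fac
  opp := A.opE
  opp_opp := A.op_op
  opp_ne := A.op_ne

theorem M_opp (z : A.DD) : A.M.opp z = A.op z := rfl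

theorem M_face (z : A.DD) : A.M.face z = A.fac z := by
  show A.fac (A.op (A.op z)) = _
  rw [A.op_op]

theorem M_rot (z : A.DD) : A.M.rot z = A.fac (A.op z) := rfl

/-! ### vertices -/

/-- on the boundary of the second map -/
def Bd (v : A.m2.Vert) : Prop := ∃ y, A.P2 y ∧ A.m2.tail y = v

/-- the new vertices -/
abbrev VV : Type := A.m1.Vert ⊕ {v : A.m2.Vert // ¬ A.Bd v}

/-- the new vertex of a vertex of the second map -/
def tau (v : A.m2.Vert) : A.VV :=
  if h : A.Bd v then Sum.inl (A.m1.tail (A.m1.opp (A.c h.choose))) else Sum.inr ⟨v, h⟩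

theorem tau_pos (y : D2) (hy : A.P2 y) :
    A.tau (A.m2.tail y) = Sum.inl (A.m1.tail (A.m1.opp (A.c y))) := by
  have h : A.Bd (A.m2.tail y) := ⟨y, hy, rfl⟩
  unfold tau
  rw [dif_pos h]
  have h2 := h.choose_spec
  have h3 : h.choose = y := A.hs _ _ h2.1 hy h2.2
  rw [h3]

theorem tau_neg (v : A.m2.Vert) (h : ¬ A.Bd v) : A.tau v = Sum.inr ⟨v, h⟩ := dif_neg h

theorem tail_face {D : Type} (m : RMap D) (d : D) : m.tail (m.face d) = m.tail (m.opp d) := by
  apply Quotient.sound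
  show m.rot.SameCycle (m.rot (m.opp d)) (m.opp d)
  exact sameCycle_apply_left.2 (SameCycle.refl _ _)

/-- the vertex label -/
def vt (z : A.DD) : A.VV :=
  match z with
  | Sum.inl d => Sum.inl (A.m1.tail d.1)
  | Sum.inr x => A.tau (A.m2.tail x.1)

theorem vt_E (d : D1) : A.vt (A.E d) = Sum.inl (A.m1.tail d) := by
  by_cases h : A.P1 d
  · rw [A.E_pos d h]
    show A.tau (A.m2.tail (A.m2.opp (A.b d))) = _
    rw [← tail_face]
    have h1 : A.P2 (A.m2.face (A.b d)) := (A.P2_face _).2 (A.P2_b d)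
    rw [A.tau_pos _ h1]
    obtain ⟨i, rfl⟩ := h
    rw [A.b_pow]
    have e : A.m2.face ((A.m2.face ^ (-i)) A.o2) = (A.m2.face ^ (1 + -i)) A.o2 := by
      rw [zpow_add, zpow_one]; rfl
    rw [e, A.c_pow, ← tail_face]
    congr 2
    have e2 : A.m1.face ((A.m1.face ^ (-(1 + -i))) A.o1) = (A.m1.face ^ (1 + -(1 + -i))) A.o1 := by
      rw [zpow_add _ 1, zpow_one]; rfl
    rw [e2]
    congr 2
    ring
  · rw [A.E_neg d h]
    rfl

theorem vt_J (x : D2) : A.vt (A.J x) = A.tau (A.m2.tail x) := by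
  by_cases h : A.P2 x
  · rw [A.J_pos x h, A.vt_E, A.tau_pos x h]
  · rw [A.J_neg x h]
    rfl

theorem vt_fac (z : A.DD) : A.vt (A.fac z) = A.vt (A.op z) := by
  rcases A.cover z with ⟨d, h, rfl⟩ | ⟨x, h, rfl⟩
  · rw [A.fac_E d h, A.op_E, A.vt_E, A.vt_E, tail_face]
  · rw [A.fac_J x h, A.op_J, A.vt_J, A.vt_J, tail_face]

theorem vt_surj : Function.Surjective A.vt := by
  rintro (v | ⟨v, h⟩)
  · obtain ⟨d, rfl⟩ := Quotient.exists_rep v
    exact ⟨A.E d, A.vt_E d⟩
  · obtain ⟨x, hx⟩ := Quotient.exists_rep v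
    refine ⟨A.J x, ?_⟩
    rw [A.vt_J]
    have : A.m2.tail x = v := hx
    rw [this, A.tau_neg v h]

/-! ### faces -/

/-- the new faces -/
abbrev FF : Type := {f : A.m1.Face // f ≠ A.m1.fc A.o1} ⊕ {f : A.m2.Face // f ≠ A.m2.fc A.o2}

theorem fc_ne {D : Type} (m : RMap D) (o d : D) (h : ¬ m.face.SameCycle o d) : m.fc d ≠ m.fc o := by
  intro h1
  have h2 : m.face.SameCycle d o := Quotient.exact h1
  exact h h2.symm

/-- the face label -/
def fl (z : A.DD) : A.FF :=
  match z with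
  | Sum.inl d => Sum.inl ⟨A.m1.fc d.1, fc_ne _ _ _ d.2⟩
  | Sum.inr x => Sum.inr ⟨A.m2.fc x.1, fc_ne _ _ _ x.2⟩

theorem fc_face' {D : Type} (m : RMap D) (d : D) : m.fc (m.face d) = m.fc d := by
  apply Quotient.sound
  show m.face.SameCycle (m.face d) d
  exact sameCycle_apply_left.2 (SameCycle.refl _ _)

theorem fl_fac (z : A.DD) : A.fl (A.fac z) = A.fl z := by
  rcases z with ⟨d, h⟩ | ⟨x, h⟩
  · show (Sum.inl ⟨A.m1.fc (A.m1.face d), _⟩ : A.FF) = Sum.inl ⟨A.m1.fc d, _⟩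
    congr 2
    exact fc_face' _ _
  · show (Sum.inr ⟨A.m2.fc (A.m2.face x), _⟩ : A.FF) = Sum.inr ⟨A.m2.fc x, _⟩
    congr 2
    exact fc_face' _ _

theorem fl_surj : Function.Surjective A.fl := by
  rintro (⟨f, h⟩ | ⟨f, h⟩)
  · obtain ⟨d, rfl⟩ := Quotient.exists_rep f
    have h1 : ¬ A.P1 d := fun h2 => h (Quotient.sound h2.symm)
    exact ⟨Sum.inl ⟨d, h1⟩, rfl⟩
  · obtain ⟨x, rfl⟩ := Quotient.exists_rep f
    have h1 : ¬ A.P2 x := fun h2 => h (Quotient.sound h2.symm)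
    exact ⟨Sum.inr ⟨x, h1⟩, rfl⟩

/-! ### connectedness -/

theorem J_rot (x : D2) (h : ¬ A.P2 (A.m2.opp x)) : A.J (A.m2.rot x) = A.M.rot (A.J x) := by
  have e : A.m2.rot x = A.m2.face (A.m2.opp x) := by
    show _ = A.m2.rot (A.m2.opp (A.m2.opp x))
    rw [A.m2.opp_opp]
  rw [e, ← A.fac_J _ h, ← A.op_J]
  rfl

theorem E_rot (d : D1) (h : ¬ A.P1 (A.m1.opp d)) : A.E (A.m1.rot d) = A.M.rot (A.E d) := by
  have e : A.m1.rot d = A.m1.face (A.m1.opp d) := by
    show _ = A.m1.rot (A.m1.opp (A.m1.opp d))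
    rw [A.m1.opp_opp]
  rw [e, ← A.fac_E _ h, ← A.op_E]
  rfl

theorem conn_set {D : Type} (m : RMap D) (hm : m.Conn) (S : Set D) (hS : S.Nonempty)
    (h1 : ∀ d ∈ S, m.rot d ∈ S) (h2 : ∀ d ∈ S, m.opp d ∈ S) : S = Set.univ := by
  obtain ⟨d, hd⟩ := hS
  refine Set.eq_univ_of_forall (fun d' => ?_)
  have h := hm d d'
  induction h with
  | refl => exact hd
  | tail _ h3 ih =>
    rcases h3 with rfl | rfl
    · exact h1 _ ih
    · exact h2 _ ih

theorem conn (S : Set A.DD) (hS : S.Nonempty) (h1 : ∀ z ∈ S, A.M.rot z ∈ S)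
    (h2 : ∀ z ∈ S, A.op z ∈ S) : S = Set.univ := by
  have hf : ∀ z ∈ S, A.fac z ∈ S := by
    intro z hz
    have := h1 _ (h2 z hz)
    rw [A.M_rot, A.op_op] at this
    exact this
  -- the boundary is in `S` if one dart of it is
  have hb1 : ∀ y, A.P2 y → A.J y ∈ S → A.J (A.m2.face⁻¹ y) ∈ S := by
    intro y hy hyS
    set y' := A.m2.face⁻¹ y with hy'
    have hfy : A.m2.face y' = y := by simp [hy']
    have hroty : A.m2.rot (A.m2.opp y') = y := hfy
    have hinv : A.m2.rot⁻¹ y = A.m2.opp y' := by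
      rw [← hroty]; simp
    have hw := walk A.m2.rot {x | A.J x ∈ S} y hyS (by
      intro z hz hne hzS
      have h3 : ¬ A.P2 (A.m2.opp z) := by
        intro h4
        apply hne
        have h5 : A.P2 (A.m2.rot z) := by
          have := (A.P2_face (A.m2.opp z)).2 h4
          have e : A.m2.face (A.m2.opp z) = A.m2.rot z := by
            show A.m2.rot (A.m2.opp (A.m2.opp z)) = _
            rw [A.m2.opp_opp]
          rwa [e] at this
        have h6 : A.m2.tail (A.m2.rot z) = A.m2.tail y := by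
          apply Quotient.sound
          show A.m2.rot.SameCycle _ _
          exact sameCycle_apply_left.2 hz.symm
        have h7 := A.hs _ _ h5 hy h6
        rw [← h7]; simp
      show A.J (A.m2.rot z) ∈ S
      rw [A.J_rot z h3]
      exact h1 _ hzS)
    have h8 : A.J (A.m2.opp y') ∈ S := hw _ (by
      rw [← hinv]
      exact sameCycle_apply_right.1 (by simpa using SameCycle.refl _ _))
    have h9 := h2 _ h8
    rw [A.op_J, A.m2.opp_opp] at h9
    exact h9
  have hb : ∀ y, A.P2 y → A.J y ∈ S → ∀ y', A.P2 y' → A.J y' ∈ S := by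
    intro y hy hyS y' hy'
    have h3 : A.m2.face.SameCycle y y' := hy.symm.trans hy'
    have h4 : (A.m2.face⁻¹).SameCycle y y' := sameCycle_inv.2 h3
    obtain ⟨n, hn⟩ := h4.exists_nat_pow_eq
    have key : ∀ n : ℕ, A.P2 ((A.m2.face⁻¹ ^ n) y) ∧ A.J ((A.m2.face⁻¹ ^ n) y) ∈ S := by
      intro n
      induction n with
      | zero => exact ⟨hy, hyS⟩
      | succ n ih =>
        have e : (A.m2.face⁻¹ ^ (n + 1)) y = A.m2.face⁻¹ ((A.m2.face⁻¹ ^ n) y) := by
          rw [pow_succ']; rfl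
        rw [e]
        refine ⟨?_, hb1 _ ih.1 ih.2⟩
        have := A.P2_face (A.m2.face⁻¹ ((A.m2.face⁻¹ ^ n) y))
        rw [← this]
        simpa using ih.1
    rw [← hn]; exact (key n).2
  have hZ : (∃ x, A.J x ∈ S) → ∀ x, A.J x ∈ S := by
    intro hne x
    have h3 := conn_set A.m2 A.pl2.2.1 {x | A.J x ∈ S} hne (by
      intro x hx
      show A.J (A.m2.rot x) ∈ S
      by_cases h4 : A.P2 (A.m2.opp x)
      · have h5 : A.J (A.m2.opp x) ∈ S := by
          rw [← A.op_J]; exact h2 _ hx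
        refine hb _ h4 h5 _ ?_
        have := (A.P2_face (A.m2.opp x)).2 h4
        have e : A.m2.face (A.m2.opp x) = A.m2.rot x := by
          show A.m2.rot (A.m2.opp (A.m2.opp x)) = _
          rw [A.m2.opp_opp]
        rwa [e] at this
      · rw [A.J_rot x h4]; exact h1 _ hx) (by
      intro x hx
      show A.J (A.m2.opp x) ∈ S
      rw [← A.op_J]; exact h2 _ hx)
    have : x ∈ {x | A.J x ∈ S} := by rw [h3]; trivial
    exact this
  have hY : (∃ d, A.E d ∈ S) → ∀ d, A.E d ∈ S := by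
    intro hne d
    have h3 := conn_set A.m1 A.pl1.2.1 {d | A.E d ∈ S} hne (by
      intro d hd
      show A.E (A.m1.rot d) ∈ S
      by_cases h4 : A.P1 (A.m1.opp d)
      · have h5 : A.J (A.b (A.m1.opp d)) ∈ S := by
          rw [A.J_pos _ (A.P2_b _), A.c_b _ h4, A.m1.opp_opp]; exact hd
        have e : A.m1.face (A.m1.opp d) = A.m1.rot d := by
          show A.m1.rot (A.m1.opp (A.m1.opp d)) = _
          rw [A.m1.opp_opp]
        have h6 : A.P1 (A.m1.rot d) := by
          have := (A.P1_face (A.m1.opp d)).2 h4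
          rwa [e] at this
        have h7 := hb _ (A.P2_b _) h5 _ (A.P2_b (A.m1.rot d))
        rw [A.J_pos _ (A.P2_b _), A.c_b _ h6] at h7
        have h8 := h2 _ h7
        rw [A.op_E, A.m1.opp_opp] at h8
        exact h8
      · rw [A.E_rot d h4]; exact h1 _ hd) (by
      intro d hd
      show A.E (A.m1.opp d) ∈ S
      rw [← A.op_E]; exact h2 _ hd)
    have : d ∈ {d | A.E d ∈ S} := by rw [h3]; trivial
    exact this
  have o2P : A.P2 A.o2 := SameCycle.refl _ _
  have hJ2 : A.J A.o2 = A.E (A.m1.opp (A.c A.o2)) := A.J_pos _ o2P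
  have hboth : (∀ x, A.J x ∈ S) ∧ (∀ d, A.E d ∈ S) := by
    obtain ⟨z, hz⟩ := hS
    rcases A.cover z with ⟨d, -, rfl⟩ | ⟨x, -, rfl⟩
    · have h3 := hY ⟨d, hz⟩
      exact ⟨hZ ⟨A.o2, by rw [hJ2]; exact h3 _⟩, h3⟩
    · have h3 := hZ ⟨x, hz⟩
      exact ⟨h3, hY ⟨_, by rw [← hJ2]; exact h3 _⟩⟩
  refine Set.eq_univ_of_forall (fun z => ?_)
  rcases A.cover z with ⟨d, -, rfl⟩ | ⟨x, -, rfl⟩
  · exact hboth.2 d
  · exact hboth.1 x

/-! ### the Euler relation -/

theorem split {α : Type} [Finite α] (p : α → Prop) :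
    Nat.card {a // p a} + Nat.card {a // ¬ p a} = Nat.card α := by
  rw [← Nat.card_sum]
  exact Nat.card_congr (Equiv.sumCompl p)

theorem card_Bd : Nat.card {v // A.Bd v} = A.m2.fdeg A.o2 := by
  symm
  apply Nat.card_eq_of_bijective
    (fun y : {y // A.m2.face.SameCycle A.o2 y} => (⟨A.m2.tail y.1, ⟨y.1, y.2, rfl⟩⟩ : {v // A.Bd v}))
  constructor
  · intro y y' h
    have h1 : A.m2.tail y.1 = A.m2.tail y'.1 := congrArg Subtype.val h
    exact Subtype.ext (A.hs _ _ y.2 y'.2 h1)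
  · rintro ⟨v, y, hy, rfl⟩
    exact ⟨⟨y, hy⟩, rfl⟩

theorem euler : 2 * (Nat.card A.VV + Nat.card A.FF) = Nat.card A.DD + 4 := by
  have e1 := A.pl1.2.2
  have e2 := A.pl2.2.2
  have d1 := split A.P1
  have d2 := split A.P2
  have v2 := split A.Bd
  rw [A.card_Bd] at v2
  have hc := A.hc
  have f1 := split (fun f : A.m1.Face => f = A.m1.fc A.o1)
  have f2 := split (fun f : A.m2.Face => f = A.m2.fc A.o2)
  rw [Nat.card_unique] at f1 f2
  have l1 : Nat.card {d // A.P1 d} = A.m1.fdeg A.o1 := rfl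
  have l2 : Nat.card {x // A.P2 x} = A.m2.fdeg A.o2 := rfl
  have cV : Nat.card A.VV = Nat.card A.m1.Vert + Nat.card {v // ¬ A.Bd v} := Nat.card_sum
  have cF : Nat.card A.FF = Nat.card {f : A.m1.Face // ¬ f = A.m1.fc A.o1} +
    Nat.card {f : A.m2.Face // ¬ f = A.m2.fc A.o2} := Nat.card_sum
  have cD : Nat.card A.DD = Nat.card {d // ¬ A.P1 d} + Nat.card {x // ¬ A.P2 x} := Nat.card_sum
  rw [cV, cF, cD]
  omega

/-- the labelled map -/
def lm : LM A.DD A.VV A.FF where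
  rot := A.M.rot
  opp := A.opE
  opp_opp := A.op_op
  opp_ne := A.op_ne
  vt := A.vt
  fc := A.fl
  vt_rot := by
    intro z
    rw [A.M_rot, A.vt_fac, A.op_op]
  fc_face := by
    intro z
    show A.fl (A.M.rot (A.op z)) = _
    rw [A.M_rot, A.op_op, A.fl_fac]
  vt_surj := A.vt_surj
  fc_surj := A.fl_surj
  ne := ⟨A.E A.o1⟩
  conn := A.conn
  euler := by
    have h := A.euler
    simp only [Nat.card_eq_fintype_card] at h
    exact h

theorem tail_iff (h1 : ST_ORB) (z z' : A.DD) : A.M.tail z = A.M.tail z' ↔ A.vt z = A.vt z' := by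
  constructor
  · intro h
    have h2 : A.M.rot.SameCycle z z' := Quotient.exact h
    obtain ⟨n, hn⟩ := h2.exists_nat_pow_eq
    have key : ∀ n : ℕ, A.vt ((A.M.rot ^ n) z) = A.vt z := by
      intro n
      induction n with
      | zero => rfl
      | succ n ih =>
        have e : (A.M.rot ^ (n + 1)) z = A.M.rot ((A.M.rot ^ n) z) := by
          rw [pow_succ']; rfl
        rw [e, ← ih]
        exact A.lm.vt_rot _
    rw [← hn, key]
  · intro h
    exact Quotient.sound ((h1 _ _ _ A.lm).1 z z' h)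

theorem face_iff (h1 : ST_ORB) (z z' : A.DD) : A.M.fc z = A.M.fc z' ↔ A.fl z = A.fl z' := by
  constructor
  · intro h
    have h2 : A.M.face.SameCycle z z' := Quotient.exact h
    obtain ⟨n, hn⟩ := h2.exists_nat_pow_eq
    have key : ∀ n : ℕ, A.fl ((A.M.face ^ n) z) = A.fl z := by
      intro n
      induction n with
      | zero => rfl
      | succ n ih =>
        have e : (A.M.face ^ (n + 1)) z = A.M.face ((A.M.face ^ n) z) := by
          rw [pow_succ']; rfl
        rw [e, ← ih, A.M_face, A.fl_fac]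
    rw [← hn, key]
  · intro h
    exact Quotient.sound ((h1 _ _ _ A.lm).2 z z' h)

theorem card_quot {α β : Type} (s : Setoid α) (f : α → β) (hf : Function.Surjective f)
    (h : ∀ a a', Quotient.mk s a = Quotient.mk s a' ↔ f a = f a') :
    Nat.card (Quotient s) = Nat.card β := by
  apply Nat.card_eq_of_bijective
    (Quotient.lift f (fun a a' haa => (h a a').1 (Quotient.sound haa)))
  constructor
  · intro q q'
    induction q using Quotient.inductionOn with
    | h a =>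
      induction q' using Quotient.inductionOn with
      | h a' =>
        intro hq
        exact (h a a').2 hq
  · intro y
    obtain ⟨a, ha⟩ := hf y
    exact ⟨Quotient.mk s a, ha⟩

theorem planar (h1 : ST_ORB) : A.M.Planar := by
  refine ⟨⟨A.E A.o1⟩, ?_, ?_⟩
  · intro d d'
    have h := A.conn {z | Relation.ReflTransGen (fun a b => b = A.M.rot a ∨ b = A.M.opp a) d z}
      ⟨d, Relation.ReflTransGen.refl⟩
      (fun z hz => hz.tail (Or.inl rfl)) (fun z hz => hz.tail (Or.inr rfl))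
    have : d' ∈ {z | Relation.ReflTransGen (fun a b => b = A.M.rot a ∨ b = A.M.opp a) d z} := by
      rw [h]; trivial
    exact this
  · have hV : Nat.card A.M.Vert = Nat.card A.VV := card_quot _ A.vt A.vt_surj (A.tail_iff h1)
    have hF : Nat.card A.M.Face = Nat.card A.FF := card_quot _ A.fl A.fl_surj (A.face_iff h1)
    rw [hV, hF]
    exact A.euler

end Dat

theorem st_FILL (h1 : ST_ORB) : QR.ST_FILL := by
  intro D1 D2 _ _ m1 m2 o1 o2 p1 p2 hc hs hn
  let A : Dat D1 D2 := ⟨m1, m2, o1, o2, p1, p2, hc, hs, hn⟩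
  have hnb : ∀ d : D2, (∀ i : ℤ, m2.tail d ≠ m2.tail ((m2.face ^ i) o2)) → ¬ A.Bd (m2.tail d) := by
    rintro d h ⟨y, ⟨i, rfl⟩, hy⟩
    exact h i hy.symm
  refine ⟨A.DD, inferInstance, A.M, A.E, A.J, A.planar h1, A.E_inj, ?_, ?_, ?_, ?_, ?_, ?_, ?_, ?_,
    ?_, ?_, ?_, ?_⟩
  · intro d; exact (A.op_E d).symm
  · intro x; exact (A.op_J x).symm
  · intro i
    rw [A.J_pos _ ⟨-i, rfl⟩]
    have := A.c_pow (-i)
    rw [neg_neg] at this
    rw [this]
  · intro d hd
    rw [A.M_face]; exact A.fac_E d hd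
  · intro x hx
    rw [A.M_face]; exact A.fac_J x hx
  · intro z
    rcases A.cover z with ⟨d, -, rfl⟩ | ⟨x, -, rfl⟩
    · exact Or.inl ⟨d, rfl⟩
    · exact Or.inr ⟨x, rfl⟩
  · intro d d' h h' hj
    rw [A.J_neg d h, A.J_neg d' h'] at hj
    exact congrArg Subtype.val (Sum.inr.inj hj)
  · intro d e he hj
    by_cases hd : A.P1 d
    · rw [A.E_pos d hd, A.J_neg e he] at hj
      have hj2 : A.m2.opp (A.b d) = e := congrArg Subtype.val (Sum.inr.inj hj)
      obtain ⟨i, rfl⟩ := hd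
      refine ⟨i, rfl, ?_⟩
      rw [← hj2, A.b_pow]
    · rw [A.E_neg d hd, A.J_neg e he] at hj
      simp at hj
  · intro d d'
    rw [A.tail_iff h1, A.vt_E, A.vt_E]
    simp [A]
  · intro d d' h
    rw [A.tail_iff h1, A.vt_J, A.vt_J]
    exact congrArg A.tau h
  · intro d d' hd h
    rw [A.tail_iff h1, A.vt_J, A.vt_J, A.tau_neg _ (hnb d hd)] at h
    by_cases h2 : A.Bd (A.m2.tail d')
    · unfold Dat.tau at h
      rw [dif_pos h2] at h
      simp at h
    · rw [A.tau_neg _ h2] at h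
      simpa using h
  · intro d d' hd h
    rw [A.tail_iff h1, A.vt_J, A.vt_E, A.tau_neg _ (hnb d hd)] at h
    simp at h

end

end QD48
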